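import Pool.Agent.H3.RCR.Main

/-!
# MP_d95f39_lc: for every fixed `k`, the problem `RCR_k` is in NP

`RCR k` is the decision problem: given (the adjacency matrix of) a finite simple graph, is its
rectilinear crossing number at most `k`?
-/

namespace Pool.Agent.Results.MP_d95f39_lc.FixedCrossingsNP

/-- `p` is a straight-line drawing of `G`: the vertices are different points of the plane, and no
edge (a closed segment) contains the point of a vertex other than its two ends. -/
def IsDrawing {n : ℕ} (G : SimpleGraph (Fin n)) (p : Fin n → ℝ × ℝ) : Prop :=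
  Function.Injective p ∧ ∀ a b c, G.Adj a b → p c ∈ segment ℝ (p a) (p b) → c = a ∨ c = b

/-- The number of crossings of a drawing: the number of unordered pairs of non-adjacent edges
whose segments intersect. -/
noncomputable def crossings {n : ℕ} (G : SimpleGraph (Fin n)) (p : Fin n → ℝ × ℝ) : ℕ :=
  Set.ncard {q : Sym2 (Sym2 (Fin n)) | ∃ a b c d : Fin n, q = s(s(a, b), s(c, d)) ∧
    G.Adj a b ∧ G.Adj c d ∧ a ≠ c ∧ a ≠ d ∧ b ≠ c ∧ b ≠ d ∧
    (segment ℝ (p a) (p b) ∩ segment ℝ (p c) (p d)).Nonempty}

/-- The rectilinear crossing number: the least number of crossings of a straight-line drawing. -/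
noncomputable def rcr {n : ℕ} (G : SimpleGraph (Fin n)) : ℕ :=
  sInf {m | ∃ p : Fin n → ℝ × ℝ, IsDrawing G p ∧ crossings G p = m}

/-- The graph with `n = ⌊√|x|⌋` vertices whose adjacency matrix is written, row by row, in the bit
string `x` (the edge `a b` is present if one of the bits `n a + b`, `n b + a` is one). -/
def graphOf (x : List Bool) : SimpleGraph (Fin (Nat.sqrt x.length)) where
  Adj a b := a ≠ b ∧ (x.getD (a.val * Nat.sqrt x.length + b.val) false = true ∨
    x.getD (b.val * Nat.sqrt x.length + a.val) false = true)
  symm := ⟨fun _ _ h => ⟨h.1.symm, h.2.symm⟩⟩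
  loopless := ⟨fun _ h => h.1 rfl⟩

/-- The decision problem `RCR_k`: is the rectilinear crossing number of the given graph at most
`k`? -/
noncomputable def RCR (k : ℕ) : N68a2faeb.DecisionProblem := fun x =>
  decide (rcr (graphOf x) ≤ k)

/-- For every fixed `k`, deciding whether the rectilinear crossing number of a given graph is at
most `k` is in NP. -/
theorem result (k : ℕ) : RCR k ∈ N68a2faeb.NP :=
  Pool.Agent.H3.RCR.main k

end Pool.Agent.Results.MP_d95f39_lc.FixedCrossingsNP
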